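import Pool.Agent.WR2.StmtsC

/-!
# Squad WR2, row GWD (MP_0f3fac_nt): the density `W r` is at most the weighted number of the points of
the level plus the bad words
-/

set_option autoImplicit false

namespace Pool.Agent.WR2.H51

open Pool.Agent.WIR
open scoped BigOperators

/-- number of the words with a given beginning -/
theorem card_beg (K M : ℕ) (C : Finset (Finset ℕ)) :
    ((Finset.Icc 1 K).powerset.filter (fun O => O ∩ Finset.Icc 1 M ∈ C)).card
      ≤ 2 ^ (K - M) * C.card := by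
  have h1 : ((Finset.Icc 1 K).powerset.filter (fun O => O ∩ Finset.Icc 1 M ∈ C)).card
      ≤ (C ×ˢ (Finset.Icc (M + 1) K).powerset).card := by
    refine Finset.card_le_card_of_injOn
      (fun O => (O ∩ Finset.Icc 1 M, O ∩ Finset.Icc (M + 1) K)) ?_ ?_
    · intro O hO
      have hO' := Finset.mem_filter.1 (Finset.mem_coe.1 hO)
      refine Finset.mem_coe.2 (Finset.mem_product.2 ⟨hO'.2, ?_⟩)
      exact Finset.mem_powerset.2 Finset.inter_subset_right
    · intro O hO O' hO' he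
      have hs := Finset.mem_powerset.1 (Finset.mem_filter.1 (Finset.mem_coe.1 hO)).1
      have hs' := Finset.mem_powerset.1 (Finset.mem_filter.1 (Finset.mem_coe.1 hO')).1
      have he' := Prod.mk.inj he
      have key : ∀ P : Finset ℕ, P ⊆ Finset.Icc 1 K →
          P = (P ∩ Finset.Icc 1 M) ∪ (P ∩ Finset.Icc (M + 1) K) := by
        intro P hP
        ext p
        simp only [Finset.mem_union, Finset.mem_inter, Finset.mem_Icc]
        constructor
        · intro hp
          have := Finset.mem_Icc.1 (hP hp)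
          by_cases h : p ≤ M
          · exact Or.inl ⟨hp, this.1, h⟩
          · exact Or.inr ⟨hp, by omega, this.2⟩
        · rintro (h | h)
          · exact h.1
          · exact h.1
      rw [key O hs, key O' hs', he'.1, he'.2]
  rw [Finset.card_product, Finset.card_powerset, Nat.card_Icc] at h1
  have h2 : K + 1 - (M + 1) = K - M := by omega
  rw [h2, mul_comm] at h1
  exact h1

/-- the value of a word depends only on a beginning with enough elements -/
theorem fo_beg (r M K : ℕ) (O : Finset ℕ) (hO : O ⊆ Finset.Icc 1 K)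
    (hr : r ≤ (O ∩ Finset.Icc 1 M).card) : FO r (O ∩ Finset.Icc 1 M) = FO r O := by
  have h3 : (3 : ZMod (3 ^ r)) ^ r = 0 := by
    have h4 : ((3 ^ r : ℕ) : ZMod (3 ^ r)) = 0 := ZMod.natCast_self _
    rw [← h4]
    push_cast
    rfl
  have hpos : ∀ q ∈ O, 1 ≤ q := fun q hq => (Finset.mem_Icc.1 (hO hq)).1
  unfold FO
  have e1 : ∑ p ∈ O ∩ Finset.Icc 1 M, (3 : ZMod (3 ^ r)) ^ rk (O ∩ Finset.Icc 1 M) p
        * (2 : ZMod (3 ^ r))⁻¹ ^ p
      = ∑ p ∈ O ∩ Finset.Icc 1 M, (3 : ZMod (3 ^ r)) ^ rk O p * (2 : ZMod (3 ^ r))⁻¹ ^ p := by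
    refine Finset.sum_congr rfl fun p hp => ?_
    have hp' := Finset.mem_inter.1 hp
    have hpM := (Finset.mem_Icc.1 hp'.2).2
    have e2 : rk (O ∩ Finset.Icc 1 M) p = rk O p := by
      unfold rk
      congr 1
      ext q
      simp only [Finset.mem_filter, Finset.mem_inter, Finset.mem_Icc]
      constructor
      · rintro ⟨⟨h1, -⟩, h2⟩
        exact ⟨h1, h2⟩
      · rintro ⟨h1, h2⟩
        exact ⟨⟨h1, hpos q h1, by omega⟩, h2⟩
    rw [e2]
  rw [e1]
  refine Finset.sum_subset Finset.inter_subset_left fun p hp hp' => ?_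
  have hpM : M < p := by
    by_contra h
    push Not at h
    exact hp' (Finset.mem_inter.2 ⟨hp, Finset.mem_Icc.2 ⟨hpos p hp, h⟩⟩)
  have hrk : r ≤ rk O p := by
    refine hr.trans (Finset.card_le_card fun q hq => ?_)
    have hq' := Finset.mem_inter.1 hq
    have := Finset.mem_Icc.1 hq'.2
    exact Finset.mem_filter.2 ⟨hq'.1, by omega⟩
  rw [← Nat.sub_add_cancel hrk, pow_add, h3, mul_zero, zero_mul]

open Classical in
/-- the words counted by `cnt` -/
noncomputable def Cf (M : ℕ) (S : Set ℕ) (N : ℕ) (x : ZMod (3 ^ N)) : Finset (Finset ℕ) :=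
  (Finset.Icc 1 M).powerset.filter (fun O => O.card ∈ S ∧ FO N O = x)

theorem card_Cf (M : ℕ) (S : Set ℕ) (N : ℕ) (x : ZMod (3 ^ N)) :
    (Cf M S N x).card = cnt M S N x := rfl

open Classical in
theorem mem_Cf (M : ℕ) (S : Set ℕ) (N : ℕ) (x : ZMod (3 ^ N)) (O : Finset ℕ) :
    O ∈ Cf M S N x ↔ O ⊆ Finset.Icc 1 M ∧ O.card ∈ S ∧ FO N O = x := by
  unfold Cf
  rw [Finset.mem_filter, Finset.mem_powerset]

open Classical in
/-- the words counted by `bz` -/
noncomputable def Bf (K r : ℕ) (z : ZMod (3 ^ r)) : Finset (Finset ℕ) :=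
  (bd K r).filter (fun O => FO r O = z)

theorem card_Bf (K r : ℕ) (z : ZMod (3 ^ r)) : (Bf K r z).card = bz K r z := rfl

open Classical in
theorem mem_Bf (K r : ℕ) (z : ZMod (3 ^ r)) (O : Finset ℕ) :
    O ∈ Bf K r z ↔ O ∈ bd K r ∧ FO r O = z := by
  unfold Bf
  rw [Finset.mem_filter]

theorem sub_key (hl : LivStmt) (l1 y r K : ℕ) (hK : K = 7 * (y + 1)) (z : ZMod (3 ^ r))
    (h2 : 2 ≤ y) (h3 : 3 * r ≤ y) :
    Cf K (Set.Ici r) r z ⊆ ((RS l1 y r K).biUnion fun l2 =>
        (Finset.Icc 1 K).powerset.filter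
          (fun O => O ∩ Finset.Icc 1 (M2 l1 y l2) ∈ Cf (M2 l1 y l2) {l2} r z))
      ∪ Bf K r z := by
  intro O hO
  obtain ⟨hO1', hO2, hO3⟩ := (mem_Cf _ _ _ _ _).1 hO
  by_cases hb : O ∈ bd K r
  · exact Finset.mem_union_right _ ((mem_Bf _ _ _ _).2 ⟨hb, hO3⟩)
  · refine Finset.mem_union_left _ ?_
    have hb' : ¬ ((O ∩ Finset.Icc 1 (3 * r)).card < r ∨ 21 * K < 40 * O.card) := fun h =>
      hb (Finset.mem_filter.2 ⟨Finset.mem_powerset.2 hO1', h⟩)
    push Not at hb'
    have hOK : O ∩ Finset.Icc 1 K = O := Finset.inter_eq_left.2 hO1'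
    have hstep : ∀ s, (O ∩ Finset.Icc 1 s).card ≤ (O ∩ Finset.Icc 1 (s + 1)).card ∧
        (O ∩ Finset.Icc 1 (s + 1)).card ≤ (O ∩ Finset.Icc 1 s).card + 1 := by
      intro s
      constructor
      · refine Finset.card_le_card (Finset.inter_subset_inter_left ?_)
        exact Finset.Icc_subset_Icc_right (by omega)
      · have : O ∩ Finset.Icc 1 (s + 1) ⊆ insert (s + 1) (O ∩ Finset.Icc 1 s) := by
          intro p hp
          have hp' := Finset.mem_inter.1 hp
          have hp2 := Finset.mem_Icc.1 hp'.2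
          rcases Nat.lt_or_ge s p with h | h
          · exact Finset.mem_insert.2 (Or.inl (by omega))
          · exact Finset.mem_insert.2 (Or.inr (Finset.mem_inter.2
              ⟨hp'.1, Finset.mem_Icc.2 ⟨hp2.1, h⟩⟩))
        exact (Finset.card_le_card this).trans (Finset.card_insert_le _ _)
    have hend : 40 * (O ∩ Finset.Icc 1 (7 * (y + 1))).card ≤ 21 * (7 * (y + 1)) := by
      rw [← hK, hOK]
      exact hb'.2
    obtain ⟨l2, hl2, hl3⟩ := hl (fun s => (O ∩ Finset.Icc 1 s).card) l1 y r hstep h2 h3 hb'.1 hend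
    have hl3' : (O ∩ Finset.Icc 1 (M2 l1 y l2)).card = l2 := hl3
    rw [← hK] at hl2
    have hrl : r ≤ l2 := (Finset.mem_filter.1 hl2).2.1
    refine Finset.mem_biUnion.2 ⟨l2, hl2, Finset.mem_filter.2 ⟨Finset.mem_powerset.2 hO1', ?_⟩⟩
    refine (mem_Cf _ _ _ _ _).2 ⟨Finset.inter_subset_right, ?_, ?_⟩
    · exact Set.mem_singleton_iff.2 hl3'
    · rw [fo_beg r (M2 l1 y l2) K O hO1' (by omega)]
      exact hO3

theorem cnt_le (hl : LivStmt) (l1 y r K : ℕ) (hK : K = 7 * (y + 1)) (z : ZMod (3 ^ r))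
    (h2 : 2 ≤ y) (h3 : 3 * r ≤ y) :
    cnt K (Set.Ici r) r z ≤
      (∑ l2 ∈ RS l1 y r K, 2 ^ (K - M2 l1 y l2)
        * cnt (M2 l1 y l2) {l2} r z) + bz K r z := by
  have h4 := Finset.card_le_card (sub_key hl l1 y r K hK z h2 h3)
  rw [card_Cf] at h4
  refine h4.trans ((Finset.card_union_le _ _).trans ?_)
  rw [card_Bf]
  refine Nat.add_le_add_right ?_ _
  refine Finset.card_biUnion_le.trans (Finset.sum_le_sum fun l2 _ => ?_)
  have h5 := card_beg K (M2 l1 y l2) (Cf (M2 l1 y l2) {l2} r z)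
  rw [card_Cf] at h5
  exact h5

theorem gwd (h1 : LivStmt) (h2 : We2Stmt) : GwdStmt := by
  intro l1 y r z hy hr
  have hc := cnt_le h1 l1 y r _ rfl z hy hr
  have hw := h2 r (3 * r) (7 * (y + 1)) z (by omega)
  set K := 7 * (y + 1) with hK
  have hcr : (cnt K (Set.Ici r) r z : ℝ) ≤
      (∑ l2 ∈ RS l1 y r K, (2 : ℝ) ^ (K - M2 l1 y l2) * (cnt (M2 l1 y l2) {l2} r z : ℝ))
        + (bz K r z : ℝ) := by exact_mod_cast hc
  have hwr : (2 : ℝ) ^ (K - 3 * r) * (cnt (3 * r) (Set.Ici r) r z : ℝ) ≤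
      (cnt K (Set.Ici r) r z : ℝ) := by exact_mod_cast hw
  have hp3 : (0 : ℝ) < 3 ^ r := by positivity
  have hp2 : (0 : ℝ) < 2 ^ K := by positivity
  have e1 : (2 : ℝ) ^ K = 2 ^ (K - 3 * r) * 2 ^ (3 * r) := by
    rw [← pow_add]
    congr 1
    omega
  have s1 : W r z ≤ 3 ^ r / 2 ^ K * (cnt K (Set.Ici r) r z : ℝ) := by
    have e2 : W r z = 3 ^ r / 2 ^ K * ((2 : ℝ) ^ (K - 3 * r)
        * (cnt (3 * r) (Set.Ici r) r z : ℝ)) := by
      unfold W
      rw [e1]
      have : (2 : ℝ) ^ (K - 3 * r) ≠ 0 := by positivity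
      field_simp
    rw [e2]
    exact mul_le_mul_of_nonneg_left hwr (by positivity)
  refine s1.trans ((mul_le_mul_of_nonneg_left hcr (by positivity)).trans (le_of_eq ?_))
  rw [mul_add, Finset.mul_sum]
  congr 1
  refine Finset.sum_congr rfl fun l2 hl2 => ?_
  have hM : M2 l1 y l2 ≤ K := (Finset.mem_filter.1 hl2).2.2.1
  have e3 : (2 : ℝ) ^ K = 2 ^ (K - M2 l1 y l2) * 2 ^ (M2 l1 y l2) := by
    rw [← pow_add]
    congr 1
    omega
  rw [e3]
  have : (2 : ℝ) ^ (K - M2 l1 y l2) ≠ 0 := by positivity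
  field_simp

end Pool.Agent.WR2.H51
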